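import Pool.Agent.K1H32.TD.Stm

/-!
# S_INV (helper16, for helper32)

`*`-strong limits of uniformly invertible operators are invertible, and the inverses converge
`*`-strongly.
-/

set_option autoImplicit false

open Filter Topology
open scoped InnerProductSpace
open Pool.Agent.K1H32.TD

namespace Pool.Agent.K1H16.TD

variable {H : Type} [NormedAddCommGroup H] [InnerProductSpace ℂ H] [CompleteSpace H]

omit [CompleteSpace H] in
theorem inv_apply {A : H →L[ℂ] H} (hA : IsUnit A) (x : H) : Ring.inverse A (A x) = x := by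
  have h := Ring.inverse_mul_cancel A hA
  have h2 := congrArg (fun T : H →L[ℂ] H => T x) h
  simpa using h2

omit [CompleteSpace H] in
theorem apply_inv {A : H →L[ℂ] H} (hA : IsUnit A) (x : H) : A (Ring.inverse A x) = x := by
  have h := Ring.mul_inverse_cancel A hA
  have h2 := congrArg (fun T : H →L[ℂ] H => T x) h
  simpa using h2

theorem low {A : ℕ → H →L[ℂ] H} {L : H →L[ℂ] H} {C : ℝ} (h : SC A L)
    (hu : ∀ᶠ n in atTop, IsUnit (A n) ∧ ‖Ring.inverse (A n)‖ ≤ C) (x : H) : ‖x‖ ≤ C * ‖L x‖ := by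
  have h1 : Tendsto (fun n => C * ‖A n x‖) atTop (𝓝 (C * ‖L x‖)) :=
    ((h.2 x).norm).const_mul C
  refine ge_of_tendsto h1 ?_
  filter_upwards [hu] with n hn
  calc ‖x‖ = ‖Ring.inverse (A n) (A n x)‖ := by rw [inv_apply hn.1]
    _ ≤ ‖Ring.inverse (A n)‖ * ‖A n x‖ := ContinuousLinearMap.le_opNorm _ _
    _ ≤ C * ‖A n x‖ := mul_le_mul_of_nonneg_right hn.2 (norm_nonneg _)

theorem conv {A : ℕ → H →L[ℂ] H} {L : H →L[ℂ] H} {C : ℝ} (h : SC A L)
    (hu : ∀ᶠ n in atTop, IsUnit (A n) ∧ ‖Ring.inverse (A n)‖ ≤ C) (hL : IsUnit L) :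
    SC (fun n => Ring.inverse (A n)) (Ring.inverse L) := by
  refine ⟨⟨C, hu.mono fun n hn => hn.2⟩, fun y => ?_⟩
  set x := Ring.inverse L y with hx
  have h0 : Tendsto (fun n => C * ‖L x - A n x‖) atTop (𝓝 0) := by
    have h1 : Tendsto (fun n => L x - A n x) atTop (𝓝 (L x - L x)) :=
      tendsto_const_nhds.sub (h.2 x)
    have h2 := (h1.norm).const_mul C
    simpa using h2
  rw [tendsto_iff_norm_sub_tendsto_zero]
  refine squeeze_zero' (Eventually.of_forall fun n => norm_nonneg _) ?_ h0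
  filter_upwards [hu] with n hn
  have e : Ring.inverse (A n) y - x = Ring.inverse (A n) (L x - A n x) := by
    rw [map_sub, inv_apply hn.1, hx, apply_inv hL]
  rw [e]
  calc ‖Ring.inverse (A n) (L x - A n x)‖ ≤ ‖Ring.inverse (A n)‖ * ‖L x - A n x‖ :=
        ContinuousLinearMap.le_opNorm _ _
    _ ≤ C * ‖L x - A n x‖ := mul_le_mul_of_nonneg_right hn.2 (norm_nonneg _)

theorem unit_of {L : H →L[ℂ] H} {C : ℝ} (h1 : ∀ x, ‖x‖ ≤ C * ‖L x‖)
    (h2 : ∀ x, ‖x‖ ≤ C * ‖(star L) x‖) : IsUnit L := by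
  rw [ContinuousLinearMap.isUnit_iff_bijective]
  have hinj : Function.Injective L := by
    rw [injective_iff_map_eq_zero]
    intro x hx
    have := h1 x
    rw [hx, norm_zero, mul_zero] at this
    exact norm_le_zero_iff.1 this
  refine ⟨hinj, ?_⟩
  have hanti : AntilipschitzWith (Real.toNNReal C) L := by
    refine ContinuousLinearMap.antilipschitz_of_bound L fun x => ?_
    refine (h1 x).trans (mul_le_mul_of_nonneg_right (Real.le_coe_toNNReal C) (norm_nonneg _))
  have hclosed : IsClosed (Set.range L) := hanti.isClosed_range L.uniformContinuous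
  have hker : (LinearMap.range (L : H →ₗ[ℂ] H))ᗮ = ⊥ := by
    have e := ContinuousLinearMap.orthogonal_range L
    rw [e, Submodule.eq_bot_iff]
    intro x hx
    have hx0 : (star L) x = 0 := by
      rw [ContinuousLinearMap.star_eq_adjoint]
      exact hx
    have := h2 x
    rw [hx0, norm_zero, mul_zero] at this
    exact norm_le_zero_iff.1 this
  have htop : (LinearMap.range (L : H →ₗ[ℂ] H)).topologicalClosure = ⊤ :=
    (Submodule.topologicalClosure_eq_top_iff).2 hker
  have hc : (LinearMap.range (L : H →ₗ[ℂ] H)).topologicalClosure =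
      LinearMap.range (L : H →ₗ[ℂ] H) := by
    apply IsClosed.submodule_topologicalClosure_eq
    convert hclosed using 1
    ext x
    simp [LinearMap.mem_range]
  rw [hc] at htop
  exact LinearMap.range_eq_top.1 htop

/-- **INV**. -/
theorem t_INV : S_INV := by
  intro H _ _ _ A L C hS hu
  have hu2 : ∀ᶠ n in atTop, IsUnit (star (A n)) ∧ ‖Ring.inverse (star (A n))‖ ≤ C := by
    filter_upwards [hu] with n hn
    refine ⟨hn.1.star, ?_⟩
    rw [Ring.inverse_star, norm_star]
    exact hn.2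
  have hL : IsUnit L := unit_of (low hS.1 hu) (low hS.2 hu2)
  refine ⟨hL, conv hS.1 hu hL, ?_⟩
  have h := conv hS.2 hu2 hL.star
  simpa only [Ring.inverse_star] using h

end Pool.Agent.K1H16.TD
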